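import Pool.Agent.helper76.SJ.ZDefs

/-!
# Project sj, part P2: analysis of the cycles `Z_{a,b}` (helper76)

Every `ZXX_stmt : Prop` is a module `sj:ZXX`. File `Pool/Agent/<you>/SJ/ZXX.lean`,
`import Pool.Agent.helper76.SJ.ZSpec`, namespace `Pool.Agent.HC.SJ`, `theorem ZXX (h : ZYY_stmt) ... : ZXX_stmt`;
any other statement of this file may be a hypothesis (except circularly); auxiliary lemmas are prefixed
`ZXX_`; no double quotes in the file.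

Conventions: `n + 1` branch points `a : Fin (n + 1) → ℂ` in the plane, always injective; `P_c = pv c`. The map
`P ↦ Q`, `λ_j(b) Q(b_j) = λ_j(a) P(a_j)`, is an affine bijection of the monic polynomials of degree `n`
(`∑ λ_j(a) P(a_j) = 1` for `P` monic of degree `n`: Lagrange), `LV a b` on coefficient vectors. `Adm d μ`: the
standing assumptions on the exponents.
-/

namespace Pool.Agent.HC.SJ

open scoped Matrix ComplexConjugate Classical ENNReal Topology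
open Filter MeasureTheory

noncomputable section

/-! ## Auxiliary definitions -/

/-- admissible exponents -/
structure Adm (d : ℕ) {n : ℕ} (μ : Fin (n + 1) → ℕ) : Prop where
  three : 3 ≤ d
  pos : ∀ j, 0 < μ j
  lt : ∀ j, μ j < d
  inf : ¬ d ∣ ∑ j, μ j

/-- coefficient vector of `∑_j λ_j(a) P_c(a_j) ∏_{k ≠ j} (t - b_k)` -/
def LV {n : ℕ} (a b : Fin (n + 1) → ℂ) (c : Fin n → ℂ) : Fin n → ℂ := fun i =>
  (∑ j, Polynomial.C (lam a j * pv c (a j)) *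
    ∏ k ∈ Finset.univ.erase j, (Polynomial.X - Polynomial.C (b k))).coeff (i : ℕ)

/-- ordered distinct roots of `P_c` -/
def Rt {n : ℕ} (c : Fin n → ℂ) : Set (Fin n → ℂ) :=
  {x | Function.Injective x ∧ ∀ t, ∏ i, (t - x i) = pv c t}

/-- the pairs `(x, x')` over `c` -/
def Fxx {n : ℕ} (a b : Fin (n + 1) → ℂ) (c : Fin n → ℂ) : Set ((Fin n → ℂ) × (Fin n → ℂ)) :=
  {p | p.1 ∈ Rt c ∧ p.2 ∈ Rt (LV a b c) ∧ (∀ i, ff a (p.1 i) ≠ 0) ∧ ∀ i, ff b (p.2 i) ≠ 0}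

/-- `n` of the `2n` coordinates `x_i`, `x'_i` -/
def Psi {n : ℕ} (R : Finset (Fin n)) (φ : Fin n → Fin n) (p : (Fin n → ℂ) × (Fin n → ℂ)) :
    Fin n → ℂ := fun i => if i ∈ R then p.1 (φ i) else p.2 (φ i)

/-- the Jacobian determinant of `c ↦ Psi R φ (x, x')` -/
def JJ {n : ℕ} (a b : Fin (n + 1) → ℂ) (R : Finset (Fin n)) (φ : Fin n → Fin n)
    (p : (Fin n → ℂ) × (Fin n → ℂ)) : ℂ :=
  (Matrix.of fun i => if i ∈ R then XM p.1 (φ i) else XM' a b p.2 (φ i)).det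

/-- the value of the differential with numbers `r`, `k` at `(x, y)` (`om d μ a x y i = omn d μ a i.r i.k x y`) -/
def omn (d : ℕ) {n : ℕ} (μ : Fin (n + 1) → ℕ) (a : Fin (n + 1) → ℂ) (r k : ℕ) (x y : ℂ) : ℂ :=
  x ^ k * hh d μ a r x / y ^ r

/-- the differential `(r, k)` of the curve `C_a` (`e = (true, r, k)`) or `C_b` (`e = (false, r, k)`), pulled back to
`Z`, as a row vector in the coordinates `c` -/
def row (d : ℕ) {n : ℕ} (μ : Fin (n + 1) → ℕ) (a b : Fin (n + 1) → ℂ) (z : ZPt n) (e : Bool × ℕ × ℕ) :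
    Fin n → ℂ :=
  if e.1 = true then ∑ l, omn d μ a e.2.1 e.2.2 (z.x l) (z.y l) • XM z.x l
  else ∑ l, omn d μ b e.2.1 e.2.2 (z.x' l) (z.y' l) • XM' a b z.x' l

/-- the matrix of `n` such differentials -/
def TM (d : ℕ) {n : ℕ} (μ : Fin (n + 1) → ℕ) (a b : Fin (n + 1) → ℂ) (s : Fin n → Bool × ℕ × ℕ)
    (z : ZPt n) : Matrix (Fin n) (Fin n) ℂ := Matrix.of fun i => row d μ a b z (s i)

/-- the rows on the side of `C_a` -/
def RR {n : ℕ} (s : Fin n → Bool × ℕ × ℕ) : Finset (Fin n) :=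
  Finset.univ.filter fun i => (s i).1 = true

/-- all the differentials are holomorphic (of the first kind) and primitive -/
def Hol (d : ℕ) {n : ℕ} (μ : Fin (n + 1) → ℕ) {m : ℕ} (s : Fin m → Bool × ℕ × ℕ) : Prop :=
  ∀ i, 0 < (s i).2.1 ∧ (s i).2.1 < d ∧ Nat.Coprime (s i).2.1 d ∧
    ((s i).2.2 + 1) * d < ∑ j, (s i).2.1 * μ j % d

/-- `|t|^(2k) ∏ |t - a_j|^(-s_j)` -/
def wg {m : ℕ} (s : Fin m → ℝ) (a : Fin m → ℂ) (k : ℕ) (t : ℂ) : ℝ≥0∞ :=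
  ENNReal.ofReal (‖t‖ ^ (2 * k) / ∏ j, ‖t - a j‖ ^ s j)

/-- the exponents `2 frac(r μ_j / d)` -/
def ex (d : ℕ) {m : ℕ} (μ : Fin m → ℕ) (r : ℕ) (j : Fin m) : ℝ := 2 * ((r * μ j % d : ℕ) : ℝ) / d

/-- `|omn|^2` for the differential `e` of `C_a` or `C_b` -/
def wts (d : ℕ) {n : ℕ} (μ : Fin (n + 1) → ℕ) (a b : Fin (n + 1) → ℂ) (e : Bool × ℕ × ℕ) (t : ℂ) :
    ℝ≥0∞ :=
  if e.1 = true then wg (ex d μ e.2.1) a e.2.2 t else wg (ex d μ e.2.1) b e.2.2 t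

/-- the dominating function -/
def DD (d : ℕ) {n : ℕ} (μ : Fin (n + 1) → ℕ) (a b : Fin (n + 1) → ℂ) (s : Fin n → Bool × ℕ × ℕ)
    (c : Fin n → ℂ) : ℝ≥0∞ :=
  ((n : ℝ≥0∞) ^ n * (d : ℝ≥0∞) ^ (2 * n)) * ∑ φ : Fin n → Fin n, ∑' p : Fxx a b c,
    (∏ i, wts d μ a b (s i) (Psi (RR s) φ p i)) * ENNReal.ofReal (‖JJ a b (RR s) φ p‖ ^ 2)

/-- its integral (bound) -/
def II (d : ℕ) {n : ℕ} (μ : Fin (n + 1) → ℕ) (a b : Fin (n + 1) → ℂ) (s : Fin n → Bool × ℕ × ℕ) :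
    ℝ≥0∞ :=
  ((n : ℝ≥0∞) ^ n * (d : ℝ≥0∞) ^ (2 * n)) * ∑ φ : Fin n → Fin n,
    if Set.InjOn φ (RR s : Set (Fin n)) ∧ Set.InjOn φ (RR s : Set (Fin n))ᶜ then
      ((RR s).card.factorial * (n - (RR s).card).factorial : ℕ) *
        ∏ i, ∫⁻ t : ℂ, wts d μ a b (s i) t
    else 0

/-- number of differentials with number `r`: `k < pr d μ r` -/
def pr (d : ℕ) {n : ℕ} (μ : Fin (n + 1) → ℕ) (r : ℕ) : ℕ := (∑ j, r * μ j % d) / d

/-- first the `(a, r, k)`, then the `(b, d - r, k)` -/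
def sI (d : ℕ) {n : ℕ} (μ : Fin (n + 1) → ℕ) (r : ℕ) : Fin n → Bool × ℕ × ℕ := fun i =>
  if (i : ℕ) < pr d μ r then (true, r, (i : ℕ)) else (false, d - r, (i : ℕ) - pr d μ r)

/-- first the `(b, r, k)`, then the `(a, d - r, k)` -/
def sJ (d : ℕ) {n : ℕ} (μ : Fin (n + 1) → ℕ) (r : ℕ) : Fin n → Bool × ℕ × ℕ := fun i =>
  if (i : ℕ) < pr d μ r then (false, r, (i : ℕ)) else (true, d - r, (i : ℕ) - pr d μ r)

/-- the component of the class of `Z_{a,b}` of weight `(r, ..., r; -r, ..., -r)` -/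
def cI (d : ℕ) {n : ℕ} (μ : Fin (n + 1) → ℕ) (a b : Fin (n + 1) → ℂ) (κ : ℂ) (r : ℕ) : ℂ :=
  ∫ c : Fin n → ℂ, ∑ᶠ z ∈ {z : ZPt n | IsZ d μ a b κ c z},
    (TM d μ a b (sI d μ r) z).det * conj (TM d μ a b (sJ d μ r) z).det

/-- a root of `κ^d = ∏ (λ_j(b)/λ_j(a))^μ_j` near 1 for `b` near `a` -/
def kp (d : ℕ) {n : ℕ} (μ : Fin (n + 1) → ℕ) (a b : Fin (n + 1) → ℂ) : ℂ :=
  (∏ j, (lam b j / lam a j) ^ μ j) ^ ((1 : ℂ) / d)

/-! ## A. Algebra -/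

/-- ZA0: numbers. Let `S_r = ∑_j (r μ_j mod d)`; `S_r ≡ r ∑ μ_j` is not divisible by `d`, `r μ_j mod d ≠ 0`,
`S_r + S_{d-r} = (n + 1) d`. So `k < pr d μ r` iff `(k + 1) d < S_r`, `pr d μ r + pr d μ (d - r) = n`; `sI` and `sJ` are
holomorphic. Moreover the exponents `r μ_j / d` (floor) of `r` and `d - r` add up to `μ_j - 1`. -/
def ZA0_stmt : Prop := ∀ (d n : ℕ) (μ : Fin (n + 1) → ℕ) (r : ℕ), Adm d μ → 0 < r → r < d →
  Nat.Coprime r d →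
  (∀ j, 0 < r * μ j % d) ∧ (∀ j, r * μ j / d + (d - r) * μ j / d + 1 = μ j) ∧
  (∀ k, k < pr d μ r ↔ (k + 1) * d < ∑ j, r * μ j % d) ∧ pr d μ r + pr d μ (d - r) = n ∧
  Hol d μ (sI d μ r) ∧ Hol d μ (sJ d μ r) ∧
  RR (sI d μ r) = Finset.univ.filter (fun i : Fin n => (i : ℕ) < pr d μ r) ∧
  RR (sJ d μ r) = Finset.univ.filter (fun i : Fin n => ¬ (i : ℕ) < pr d μ r)

/-- ZA1: the affine map `LV`. The polynomial `∑_j λ_j(a) P_c(a_j) ∏_{k ≠ j} (X - b_k)` is monic of degree `n`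
(`∑_j λ_j(a) P_c(a_j) = 1`, Lagrange interpolation of `P_c` at the `a_j`, coefficient of `X^n`:
`Polynomial` / `Lagrange` API, or `Lagrange.sum_nodalWeight...`; or partial fractions). -/
def ZA1_stmt : Prop := ∀ (n : ℕ) (a b : Fin (n + 1) → ℂ), Function.Injective a →
  (∑ j, lam a j * a j ^ n = 1) ∧ (∀ m < n, ∑ j, lam a j * a j ^ m = 0) ∧
  (∀ (c : Fin n → ℂ) (t : ℂ), pv (LV a b c) t =
    ∑ j, lam a j * pv c (a j) * ∏ k ∈ Finset.univ.erase j, (t - b k)) ∧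
  (∀ (c : Fin n → ℂ) (t : ℂ), ff b t ≠ 0 → pv (LV a b c) t =
    ff b t * ∑ j, lam a j * pv c (a j) / (t - b j)) ∧
  (Function.Injective b → ∀ (c : Fin n → ℂ) (j : Fin (n + 1)),
    lam b j * pv (LV a b c) (b j) = lam a j * pv c (a j)) ∧
  (∀ c : Fin n → ℂ, LV a a c = c)

/-- ZA2: `LV` is affine in `c` with linear part `v ↦ ∑ v_m L(t^m)`, and continuous in `(b, c)`
(coefficients of products of polynomials). May use ZA1. -/
def ZA2_stmt : Prop := ∀ (n : ℕ) (a : Fin (n + 1) → ℂ), Function.Injective a →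
  Continuous (fun p : (Fin (n + 1) → ℂ) × (Fin n → ℂ) => LV a p.1 p.2) ∧
  ∀ b : Fin (n + 1) → ℂ, ∃ Lc : (Fin n → ℂ) →L[ℂ] (Fin n → ℂ),
    (∀ c v, LV a b (c + v) = LV a b c + Lc v) ∧
    ∀ v t, ff b t ≠ 0 → ∑ m : Fin n, Lc v m * t ^ (m : ℕ) = ∑ m : Fin n, v m * Lm a b (m : ℕ) t

/-- ZA3: the fibres in terms of `Fxx`. Two monic polynomials of degree `n` which agree at the `n + 1`
points `b_j` are equal. Uses ZA1. -/
def ZA3_stmt : Prop := ∀ (d n : ℕ) (μ : Fin (n + 1) → ℕ) (a b : Fin (n + 1) → ℂ) (κ : ℂ)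
  (c : Fin n → ℂ) (z : ZPt n), 0 < d → (∀ j, 0 < μ j) → Function.Injective a → Function.Injective b →
  (IsZ d μ a b κ c z ↔ (z.x, z.x') ∈ Fxx a b c ∧ (∀ i, z.y i ^ d = fm μ a (z.x i)) ∧
    (∀ i, z.y' i ^ d = fm μ b (z.x' i)) ∧ ∏ i, z.y i = κ * ∏ i, z.y' i)

/-- ZA4: ordered roots. Unique factorisation (`Polynomial.roots`, multisets), elementary symmetric
polynomials. -/
def ZA4_stmt : Prop := ∀ (n : ℕ),
  (∀ (c x z : Fin n → ℂ), x ∈ Rt c → (z ∈ Rt c ↔ ∃ σ : Equiv.Perm (Fin n), z = x ∘ σ)) ∧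
  (∀ (c c' x : Fin n → ℂ), x ∈ Rt c → x ∈ Rt c' → c = c') ∧
  (∀ x : Fin n → ℂ, Function.Injective x → ∃ c, x ∈ Rt c) ∧
  (∀ c : Fin n → ℂ, (Rt c).Finite)

/-- ZA5: `∏_i fm b(x'_i) ∏_j λ_j(b)^μ_j = ∏_i fm a(x_i) ∏_j λ_j(a)^μ_j`: `∏_i fm a(x_i) = ± ∏_j P_c(a_j)^μ_j`, the sign
`(-1)^(n ∑ μ_j)` is the same for `a` and `b`. Uses ZA1. -/
def ZA5_stmt : Prop := ∀ (n : ℕ) (μ : Fin (n + 1) → ℕ) (a b : Fin (n + 1) → ℂ) (c : Fin n → ℂ)
  (p : (Fin n → ℂ) × (Fin n → ℂ)), Function.Injective a → Function.Injective b → p ∈ Fxx a b c →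
  (∏ i, fm μ b (p.2 i)) * ∏ j, lam b j ^ μ j = (∏ i, fm μ a (p.1 i)) * ∏ j, lam a j ^ μ j

/-- ZA6: the matrices `XM`, `XM'`. Permutations; `L t^m = t^m` for `a = b`, `m ≤ n` (Lagrange interpolation,
ZA1); `det XM ≠ 0` (Vandermonde). -/
def ZA6_stmt : Prop := ∀ (n : ℕ) (a b : Fin (n + 1) → ℂ) (x : Fin n → ℂ), Function.Injective a →
  (∀ (σ : Equiv.Perm (Fin n)) (i : Fin n), XM (x ∘ σ) i = XM x (σ i)) ∧
  (∀ (σ : Equiv.Perm (Fin n)) (i : Fin n), XM' a b (x ∘ σ) i = XM' a b x (σ i)) ∧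
  (∀ i, ff a (x i) ≠ 0 → XM' a a x i = XM x i) ∧
  (Function.Injective x → (XM x).det ≠ 0)

/-- ZA7: uniqueness of the polynomial with given mixed roots. `v = c' - c`: `∑_m v_m x_{φ i}^m = 0` for `i ∈ R` and
`∑_m v_m L(t^m)(x'_{φ i}) = 0` for `i ∉ R` (both polynomials vanish there), so the matrix of `JJ` kills `v`.
Uses ZA2. -/
def ZA7_stmt : Prop := ∀ (n : ℕ) (a b : Fin (n + 1) → ℂ) (c c' : Fin n → ℂ)
  (p q : (Fin n → ℂ) × (Fin n → ℂ)) (R : Finset (Fin n)) (φ : Fin n → Fin n),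
  Function.Injective a → Function.Injective b → p ∈ Fxx a b c → q ∈ Fxx a b c' →
  Psi R φ p = Psi R φ q → JJ a b R φ p ≠ 0 → c = c'

/-- ZA8: multilinearity of the determinant in the rows (`MultilinearMap.map_sum`, `Matrix.detRowAlternating`). -/
def ZA8_stmt : Prop := ∀ (n : ℕ) (R : Finset (Fin n)) (A B : Fin n → Fin n → ℂ)
  (X Y : Matrix (Fin n) (Fin n) ℂ),
  (Matrix.of fun i => if i ∈ R then ∑ l, A i l • X l else ∑ l, B i l • Y l).det =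
    ∑ φ : Fin n → Fin n, (∏ i, if i ∈ R then A i (φ i) else B i (φ i)) *
      (Matrix.of fun i => if i ∈ R then X (φ i) else Y (φ i)).det

/-- ZA9: finiteness and number of sheets over `(x, x')`: at most `d^n` choices of `y`, `d^n` of `y'`.
Uses ZA3, ZA4. -/
def ZA9_stmt : Prop := ∀ (d n : ℕ) (μ : Fin (n + 1) → ℕ) (a b : Fin (n + 1) → ℂ) (κ : ℂ)
  (c : Fin n → ℂ), 0 < d → (∀ j, 0 < μ j) → Function.Injective a → Function.Injective b →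
  (Fxx a b c).Finite ∧ {z : ZPt n | IsZ d μ a b κ c z}.Finite ∧
  ∀ G : (Fin n → ℂ) × (Fin n → ℂ) → ℝ≥0∞,
    ∑' z : {z : ZPt n | IsZ d μ a b κ c z}, G (z.1.x, z.1.x') ≤
      (d : ℝ≥0∞) ^ (2 * n) * ∑' p : Fxx a b c, G p

/-! ## S. Local sheets -/

/-- ZS1: roots are holomorphic functions of the coefficients. Inverse function theorem for the
polynomial map `x ↦ coefficients of ∏ (t - x_i)` at `x0`: its derivative sends `e_k` to the coefficients of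
`- ∏_{i ≠ k} (t - x_i)` and `XM x` is the inverse matrix (`(XM x *ᵥ D e_k)_i = ∏_{l ≠ k} (x_i - x_l) /
∏_{l ≠ i} (x_i - x_l) = δ_{ik}`). (`HasStrictFDerivAt.localInverse`, `ContDiffAt.toOpenPartialHomeomorph`.) -/
def ZS1_stmt : Prop := ∀ (n : ℕ) (c0 x0 : Fin n → ℂ), x0 ∈ Rt c0 →
  ∃ (U : Set (Fin n → ℂ)) (h : (Fin n → ℂ) → (Fin n → ℂ)), IsOpen U ∧ c0 ∈ U ∧ ContinuousOn h U ∧
    h c0 = x0 ∧ ∀ c ∈ U, h c ∈ Rt c ∧
      HasFDerivAt h (Matrix.mulVecLin (XM (h c))).toContinuousLinearMap c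

/-- ZS2: sheets of `Fxx`. `h' = h_0 ∘ LV a b`, `h_0` the sheet of ZS1 at `(LV a b c0, p.2)`; the derivative is
`XM (h' c) *ᵥ (Lc v) = XM' a b (h' c) *ᵥ v` (ZA2); the conditions `f ≠ 0` are open. Uses ZS1, ZA2. -/
def ZS2_stmt : Prop := ∀ (n : ℕ) (a b : Fin (n + 1) → ℂ) (c0 : Fin n → ℂ)
  (p : (Fin n → ℂ) × (Fin n → ℂ)), Function.Injective a → Function.Injective b → p ∈ Fxx a b c0 →
  ∃ (U : Set (Fin n → ℂ)) (h h' : (Fin n → ℂ) → (Fin n → ℂ)), IsOpen U ∧ c0 ∈ U ∧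
    ContinuousOn h U ∧ ContinuousOn h' U ∧ h c0 = p.1 ∧ h' c0 = p.2 ∧
    ∀ c ∈ U, (h c, h' c) ∈ Fxx a b c ∧
      HasFDerivAt h (Matrix.mulVecLin (XM (h c))).toContinuousLinearMap c ∧
      HasFDerivAt h' (Matrix.mulVecLin (XM' a b (h' c))).toContinuousLinearMap c

/-- ZS3: on `U` (ZS2) the fibres are `{(h c ∘ σ, h' c ∘ τ)}`, for different `(σ, τ)` different. Uses ZA4. -/
def ZS3_stmt : Prop := ∀ (n : ℕ) (a b : Fin (n + 1) → ℂ) (c : Fin n → ℂ)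
  (p : (Fin n → ℂ) × (Fin n → ℂ)), p ∈ Fxx a b c →
  Function.Injective (fun q : Equiv.Perm (Fin n) × Equiv.Perm (Fin n) => (p.1 ∘ q.1, p.2 ∘ q.2)) ∧
  Fxx a b c = Set.range (fun q : Equiv.Perm (Fin n) × Equiv.Perm (Fin n) => (p.1 ∘ q.1, p.2 ∘ q.2))

/-! ## B. Measure theory -/

/-- ZB0: real and complex determinant (`LinearMap.det_restrictScalars`, `Algebra.norm` of `ℂ/ℝ` is
`Complex.normSq`). -/
def ZB0_stmt : Prop := ∀ (n : ℕ) (M : Matrix (Fin n) (Fin n) ℂ),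
  |((Matrix.mulVecLin M).toContinuousLinearMap.restrictScalars ℝ).det| = ‖M.det‖ ^ 2

/-- ZB1: area formula with multiplicities. `E' = E ∩ {det ≠ 0}` is a countable disjoint union of measurable
sets `E_i` on which `F` is injective (`exists_partition_approximatesLinearOn_of_hasFDerivWithinAt` with
`r A` small compared with `‖A⁻¹‖⁻¹`; only differentiability is needed); `∫_{E_i} g(F) |det|^2 = ∫_{F(E_i)} g`
(`MeasureTheory.lintegral_image_eq_lintegral_abs_det_fderiv_mul`, ZB0; `measurable_fderiv`), and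
`∑_i 1_{F(E_i)}(y) = encard` (`measurable_image_of_fderivWithin` or similar). -/
def ZB1_stmt : Prop := ∀ (n : ℕ) (U E : Set (Fin n → ℂ)) (F : (Fin n → ℂ) → (Fin n → ℂ))
  (M : (Fin n → ℂ) → Matrix (Fin n) (Fin n) ℂ) (g : (Fin n → ℂ) → ℝ≥0∞), IsOpen U → E ⊆ U →
  MeasurableSet E → Measurable g →
  (∀ c ∈ U, HasFDerivAt F (Matrix.mulVecLin (M c)).toContinuousLinearMap c) →
  (∫⁻ c in E, g (F c) * ENNReal.ofReal (‖(M c).det‖ ^ 2) =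
    ∫⁻ y, g y * (({c ∈ E | F c = y ∧ (M c).det ≠ 0}.encard : ℕ∞) : ℝ≥0∞)) ∧
  Measurable (fun y => (({c ∈ E | F c = y ∧ (M c).det ≠ 0}.encard : ℕ∞) : ℝ≥0∞))

/-- ZB2: the area formula for the fibres. The set `{c | Fxx a b c nonempty}` is open; cover it by countably many
`U_k` (ZS2, Lindelof), disjoint measurable `E_k ⊆ U_k`; on `E_k` the sum over `Fxx` is the finite sum over
`(σ, τ)` (ZS3), the Jacobian matrix of `c ↦ Psi R φ (h c ∘ σ, h' c ∘ τ)` is the matrix of `JJ` at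
`(h c ∘ σ, h' c ∘ τ)` (ZA6); apply ZB1 to every `(k, σ, τ)` and add the cardinalities (the sets
`E_k × {(σ, τ)}` are a disjoint decomposition of the set of all `(c, p)`). Uses ZB1, ZS2, ZS3, ZA6. -/
def ZB2_stmt : Prop := ∀ (n : ℕ) (a b : Fin (n + 1) → ℂ) (R : Finset (Fin n)) (φ : Fin n → Fin n)
  (g : (Fin n → ℂ) → ℝ≥0∞), Function.Injective a → Function.Injective b → Measurable g →
  ∫⁻ c : Fin n → ℂ, ∑' p : Fxx a b c, g (Psi R φ p) * ENNReal.ofReal (‖JJ a b R φ p‖ ^ 2) =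
    ∫⁻ y, g y * (({q : (Fin n → ℂ) × ((Fin n → ℂ) × (Fin n → ℂ)) |
      q.2 ∈ Fxx a b q.1 ∧ Psi R φ q.2 = y ∧ JJ a b R φ q.2 ≠ 0}.encard : ℕ∞) : ℝ≥0∞)

/-- ZB3: multiplicities. `c` is determined by `y` (ZA7); `x` is an ordering of the roots of `P_c` with given
values on `φ(R)`: at most `(n - #R)!`; `x'` has given values on `φ(R^c)`: at most `(#R)!`. If `φ` is not
injective on `R` or on the complement, `JJ = 0` (equal rows). -/
def ZB3_stmt : Prop := ∀ (n : ℕ) (a b : Fin (n + 1) → ℂ) (R : Finset (Fin n)) (φ : Fin n → Fin n)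
  (y : Fin n → ℂ), Function.Injective a → Function.Injective b →
  {q : (Fin n → ℂ) × ((Fin n → ℂ) × (Fin n → ℂ)) |
      q.2 ∈ Fxx a b q.1 ∧ Psi R φ q.2 = y ∧ JJ a b R φ q.2 ≠ 0}.encard ≤
    if Set.InjOn φ (R : Set (Fin n)) ∧ Set.InjOn φ (R : Set (Fin n))ᶜ then
      ((R.card.factorial * (n - R.card).factorial : ℕ) : ℕ∞) else 0

/-- ZB4: the same for `a = b`, with equality: `c` = the coefficients of `∏ (t - y_i)` (ZA1: `LV a a c = c`),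
`JJ` is the determinant of `XM y` up to sign (ZA6), exactly `(n - #R)!` orderings `x` and `(#R)!` orderings
`x'`. Uses ZA1, ZA4, ZA6, ZA7. -/
def ZB4_stmt : Prop := ∀ (n : ℕ) (a : Fin (n + 1) → ℂ) (R : Finset (Fin n)) (φ : Fin n → Fin n)
  (y : Fin n → ℂ), Function.Injective a → Function.Injective y → (∀ i, ff a (y i) ≠ 0) →
  Set.InjOn φ (R : Set (Fin n)) → Set.InjOn φ (R : Set (Fin n))ᶜ →
  {q : (Fin n → ℂ) × ((Fin n → ℂ) × (Fin n → ℂ)) |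
      q.2 ∈ Fxx a a q.1 ∧ Psi R φ q.2 = y ∧ JJ a a R φ q.2 ≠ 0}.encard =
    ((R.card.factorial * (n - R.card).factorial : ℕ) : ℕ∞)

/-- ZB5: null sets. `{y | y not injective or f_a(y_i) = 0}` is a finite union of hyperplanes `y_i = y_j`, `y_i = a_j`;
`{c | Rt c empty}` is contained in the image under `x ↦ coefficients of ∏ (t - x_i)` of the set where its
derivative is singular (`addHaar_image_eq_zero_of_det_fderivWithin_eq_zero`), every monic polynomial splits;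
`P_c(a_j) = 0` is an affine hyperplane. Then `Fxx a a c` contains `(x, x)`. -/
def ZB5_stmt : Prop := ∀ (n : ℕ) (a : Fin (n + 1) → ℂ), Function.Injective a →
  (∀ᵐ y : Fin n → ℂ, Function.Injective y ∧ ∀ i, ff a (y i) ≠ 0) ∧
  (∀ᵐ c : Fin n → ℂ, (Fxx a a c).Nonempty)

/-- ZB6: measurability, nonnegative functions of `(x, x')`. Locally the sum is the finite sum over `(σ, τ)` of
`G (h c ∘ σ, h' c ∘ τ)` with `h`, `h'` continuous on `U` (ZS2, ZS3); countable cover. -/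
def ZB6_stmt : Prop := ∀ (n : ℕ) (a b : Fin (n + 1) → ℂ) (G : (Fin n → ℂ) × (Fin n → ℂ) → ℝ≥0∞),
  Function.Injective a → Function.Injective b → Measurable G →
  Measurable (fun c : Fin n → ℂ => ∑' p : Fxx a b c, G p)

/-- ZB7: measurability, complex functions of `(x, y, x', y')`. The `y` over `x` are `y_i = ζ^{g_i} fm(x_i)^{1/d}`, `g_i ∈ Fin d`,
`ζ = exp(2πi/d)`, principal powers (measurable), the last condition is a measurable condition on `(x, x')`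
for given `(g, g')`; so the sum over `(y, y')` is a measurable function of `(x, x')`, then as in ZB6. -/
def ZB7_stmt : Prop := ∀ (d n : ℕ) (μ : Fin (n + 1) → ℕ) (a b : Fin (n + 1) → ℂ) (κ : ℂ)
  (G : (Fin n → ℂ) × (Fin n → ℂ) × (Fin n → ℂ) × (Fin n → ℂ) → ℂ), 0 < d → (∀ j, 0 < μ j) →
  Function.Injective a → Function.Injective b → Measurable G →
  Measurable (fun c : Fin n → ℂ =>
    ∑ᶠ z ∈ {z : ZPt n | IsZ d μ a b κ c z}, G (z.x, z.y, z.x', z.y'))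

/-- ZB8: the integral of the dominating function: `≤`, with equality for `a = b`. `∫ ∏_i w_i(y_i) dy = ∏ ∫ w_i`
(`MeasureTheory.lintegral_fintype_prod_eq_prod` or similar), ZB2, ZB3, ZB4, ZB5, ZB6 (additivity). -/
def ZB8_stmt : Prop := ∀ (d n : ℕ) (μ : Fin (n + 1) → ℕ) (a b : Fin (n + 1) → ℂ)
  (s : Fin n → Bool × ℕ × ℕ), Function.Injective a → Function.Injective b →
  Measurable (DD d μ a b s) ∧ (∫⁻ c, DD d μ a b s c ≤ II d μ a b s) ∧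
  ∫⁻ c, DD d μ a a s c = II d μ a a s

/-! ## E. Integrals in one variable -/

/-- ZE1: finite. `|t|^{2k} ∏ |t - a_j|^{-s_j}`: at infinity the exponent is `2k - ∑ s_j < -2`, at the `a_j` it is
`-s_j > -2`; bound: `∏_j |t - a_j|^{-s_j} ≤ C ∑_j (1 + |t|)^{s_j - ∑ s} |t - a_j|^{-s_j}` (`C` depending on the minimal
distance of the `a_j` and on `max |a_j|`). -/
def ZE1_stmt : Prop := ∀ (m : ℕ) (s : Fin m → ℝ) (a : Fin m → ℂ) (k : ℕ), Function.Injective a →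
  (∀ j, 0 < s j ∧ s j < 2) → 2 * (k : ℝ) + 2 < ∑ j, s j → ∫⁻ t : ℂ, wg s a k t < ∞

/-- ZE2: continuous in `a`. Generalised dominated convergence ZF0: `wg s b k ≤ D_b`,
`D_b(t) = C ∑_j (1 + |t|)^{2k + s_j - ∑ s} |t - b_j|^{-s_j}` for `b` near `a` with one constant `C`, and `∫ D_b → ∫ D_a` after
the substitution `t = b_j + u` by dominated convergence (`(1 + |u + b_j|)^{-q} ≤ C' (1 + |u|)^{-q}`). -/
def ZE2_stmt : Prop := ∀ (m : ℕ) (s : Fin m → ℝ) (a : Fin m → ℂ) (k : ℕ), Function.Injective a →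
  (∀ j, 0 < s j ∧ s j < 2) → 2 * (k : ℝ) + 2 < ∑ j, s j →
  Tendsto (fun b : Fin m → ℂ => ∫⁻ t : ℂ, wg s b k t) (𝓝 a) (𝓝 (∫⁻ t : ℂ, wg s a k t))

/-- ZE3: `II` is finite and continuous (finite products of finite limits in `ℝ≥0∞`; `0 < r μ_j mod d < d` since `r` is
prime to `d`). Uses ZE1, ZE2. -/
def ZE3_stmt : Prop := ∀ (d n : ℕ) (μ : Fin (n + 1) → ℕ) (a : Fin (n + 1) → ℂ)
  (s : Fin n → Bool × ℕ × ℕ), Adm d μ → Function.Injective a → Hol d μ s →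
  (∀ b, Function.Injective b → II d μ a b s < ∞) ∧
  Tendsto (fun b : Fin (n + 1) → ℂ => II d μ a b s) (𝓝 a) (𝓝 (II d μ a a s))

/-! ## D. Integrability of all constant forms -/

/-- ZD1: pointwise domination. Expand the determinant (ZA8), `|∑_φ u_φ|^2 ≤ n^n ∑_φ |u_φ|^2`,
`|omn|^2 = wg (ex ..)` at points of the curve (`|y|^{2r} = ∏ |x - a_j|^{2 r μ_j / d}`), ZA9. -/
def ZD1_stmt : Prop := ∀ (d n : ℕ) (μ : Fin (n + 1) → ℕ) (a b : Fin (n + 1) → ℂ) (κ : ℂ)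
  (c : Fin n → ℂ) (s : Fin n → Bool × ℕ × ℕ), Adm d μ → Function.Injective a → Function.Injective b →
  ∑' z : {z : ZPt n | IsZ d μ a b κ c z}, ENNReal.ofReal (‖(TM d μ a b s z.1).det‖ ^ 2) ≤
    DD d μ a b s c

/-- ZD2: measurability in `z` (as a function of the four vectors). Rational functions. -/
def ZD2_stmt : Prop := ∀ (d n : ℕ) (μ : Fin (n + 1) → ℕ) (a b : Fin (n + 1) → ℂ),
  (∀ s : Fin n → Bool × ℕ × ℕ, Measurable
    (fun q : (Fin n → ℂ) × (Fin n → ℂ) × (Fin n → ℂ) × (Fin n → ℂ) =>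
      (TM d μ a b s ⟨q.1, q.2.1, q.2.2.1, q.2.2.2⟩).det)) ∧
  ∀ (v : Fin n → ℂ), Measurable
    (fun q : (Fin n → ℂ) × (Fin n → ℂ) × (Fin n → ℂ) × (Fin n → ℂ) =>
      Df d μ a b ⟨q.1, q.2.1, q.2.2.1, q.2.2.2⟩ v)

/-- ZD3: products of two determinants are integrable over `Z`. `|u v| ≤ |u|^2 + |v|^2`, ZD1, ZB7, ZB8, ZE3, ZD2. -/
def ZD3_stmt : Prop := ∀ (d n : ℕ) (μ : Fin (n + 1) → ℕ) (a b : Fin (n + 1) → ℂ) (κ : ℂ)
  (s s' : Fin n → Bool × ℕ × ℕ), Adm d μ → Function.Injective a → Function.Injective b →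
  Hol d μ s → Hol d μ s' →
  Integrable (fun c : Fin n → ℂ => ∑ᶠ z ∈ {z : ZPt n | IsZ d μ a b κ c z},
    (TM d μ a b s z).det * conj (TM d μ a b s' z).det)

/-- the constant of ZD4: `det` of the `2n × 2n` matrix with rows `(dz_1(rb_j))_j, ..., (dz_n(rb_j))_j`, and their
conjugates -/
def cst (n : ℕ) : ℂ := (Matrix.of fun i j : Fin (2 * n) =>
  if h : (i : ℕ) < n then rb n j ⟨i, h⟩ else conj (rb n j ⟨(i : ℕ) - n, by omega⟩)).det

/-- ZD4: linear algebra. The matrix is the product of the block diagonal matrix `(A, conj B)` and the matrix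
of `cst`; `cst n ≠ 0` (after a permutation of the columns it is `±(-2i)^n`). -/
def ZD4_stmt : Prop := ∀ (n : ℕ), cst n ≠ 0 ∧ ∀ A B : Matrix (Fin n) (Fin n) ℂ,
  (Matrix.of fun i j : Fin (2 * n) =>
    if h : (i : ℕ) < n then (A *ᵥ rb n j) ⟨i, h⟩
      else conj ((B *ᵥ rb n j) ⟨(i : ℕ) - n, by omega⟩)).det =
  cst n * (A.det * conj B.det)

/-- ZD5: linear algebra. If the number of rows of conjugate linear functions is not `n`, the determinant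
vanishes (more than `n` linear functions on `ℂ^n` are linearly dependent). -/
def ZD5_stmt : Prop := ∀ (n : ℕ) (A : Matrix (Fin (2 * n)) (Fin n) ℂ) (S : Finset (Fin (2 * n))),
  S.card ≠ n → (Matrix.of fun i j : Fin (2 * n) =>
    if i ∈ S then (A *ᵥ rb n j) i else conj ((A *ᵥ rb n j) i)).det = 0

/-- ZD6: values of an alternating form on a complex subspace. Expand `η` in the (real) coordinates
`Re`, `Im` of a basis, so in `co_e`, `conj co_e` (as TA4 / TA6 in `helper54.HC.TSpec`), and use ZD4, ZD5. -/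
def ZD6_stmt : Prop := ∀ (n : ℕ) (J : Type) [Fintype J] (η : (J → ℂ) [⋀^Fin (2 * n)]→ₗ[ℝ] ℂ),
  ∃ C : (Fin n → J) → (Fin n → J) → ℂ, ∀ T : Matrix J (Fin n) ℂ,
    η (fun j => T *ᵥ rb n j) = ∑ s, ∑ s', C s s' * ((T.submatrix s id).det * conj (T.submatrix s' id).det)

/-- ZD7: INTEGRABILITY of all constant forms (output (i)). The two components of `Df` have the coordinates
`row` (`row` for `e = (true, i.r, i.k)`, `(false, i.r, i.k)`, `i : Idx d μ`), all holomorphic (`Idx.hol`). Uses ZD3, ZD6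
(`W × W` is `(Idx ⊕ Idx → ℂ)`), ZA9. -/
def ZD7_stmt : Prop := ∀ (d n : ℕ) (μ : Fin (n + 1) → ℕ) (a b : Fin (n + 1) → ℂ) (κ : ℂ), Adm d μ →
  Function.Injective a → Function.Injective b →
  (∀ η : ((Idx d μ → ℂ) × (Idx d μ → ℂ)) [⋀^Fin (2 * n)]→ₗ[ℝ] ℂ,
    Integrable (fun c : Fin n → ℂ => ∑ᶠ z ∈ {z : ZPt n | IsZ d μ a b κ c z},
      η (fun j => Df d μ a b z (rb n j)))) ∧
  (∀ η : ((Idx d μ → ℂ) × (Idx d μ → ℂ)) [⋀^Fin (2 * n)]→ₗ[ℝ] ℝ,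
    Integrable (fun c : Fin n → ℂ => ∑ᶠ z ∈ {z : ZPt n | IsZ d μ a b κ c z},
      η (fun j => Df d μ a b z (rb n j)))) ∧
  ∀ c : Fin n → ℂ, {z : ZPt n | IsZ d μ a b κ c z}.Finite

/-! ## F. Limits for `b → a` -/

/-- ZF0: generalised dominated convergence (Pratt). Fatou's lemma for
`D k x + D∞ x - ‖g k x - g∞ x‖ₑ` (nonnegative): `∫ ‖g k - g∞‖ₑ → 0`. -/
def ZF0_stmt : Prop := ∀ (α : Type) [MeasurableSpace α] (μ : Measure α) (g : ℕ → α → ℂ)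
  (g' : α → ℂ) (D : ℕ → α → ℝ≥0∞) (D' : α → ℝ≥0∞) (I : ℕ → ℝ≥0∞),
  (∀ k, AEStronglyMeasurable (g k) μ) → (∀ k, AEMeasurable (D k) μ) → AEMeasurable D' μ →
  (∀ k, ∀ᵐ x ∂μ, ‖g k x‖ₑ ≤ D k x) → (∀ᵐ x ∂μ, Tendsto (fun k => g k x) atTop (𝓝 (g' x))) →
  (∀ᵐ x ∂μ, Tendsto (fun k => D k x) atTop (𝓝 (D' x))) → (∀ k, ∫⁻ x, D k x ∂μ ≤ I k) →
  Tendsto I atTop (𝓝 (∫⁻ x, D' x ∂μ)) → ∫⁻ x, D' x ∂μ < ∞ →
  Tendsto (fun k => ∫ x, g k x ∂μ) atTop (𝓝 (∫ x, g' x ∂μ))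

/-- ZF1: continuity of the fibres `Fxx a b c` in `b` at `b = a` (`c` fixed). `x` does not move; `x' ∈ Rt (LV a b c)`
moves continuously by the sheet of ZS1 at `(LV a a c, p.2)` composed with `b ↦ LV a b c` (ZA2), all `x'` are
obtained by permutations (ZA4); `f_b(x') ≠ 0` remains true. -/
def ZF1_stmt : Prop := ∀ (n : ℕ) (a : Fin (n + 1) → ℂ) (c : Fin n → ℂ)
  (G : (Fin (n + 1) → ℂ) → (Fin n → ℂ) × (Fin n → ℂ) → ℝ≥0∞), Function.Injective a →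
  (Fxx a a c).Nonempty →
  (∀ p ∈ Fxx a a c, ContinuousAt (fun q : (Fin (n + 1) → ℂ) × ((Fin n → ℂ) × (Fin n → ℂ)) =>
    G q.1 q.2) (a, p)) →
  Tendsto (fun b : Fin (n + 1) → ℂ => ∑' p : Fxx a b c, G b p) (𝓝 a) (𝓝 (∑' p : Fxx a a c, G a p))

/-- ZF2: continuity of the fibres of `Z`. As ZF1; over a point `(x, y, x'_0, y'_0)` for `b = a` lies
`(x, y, x'(b), y'(b))`, `y'(b)_i = y'_{0,i} (fm_b(x'(b)_i) / fm_a(x'_{0,i}))^{1/d}` (principal power, near 1); the condition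
`∏ y = κ ∏ y'` is preserved: `kp d μ a b * ∏_i (fm_b(x'(b)_i) / fm_a(x'_{0,i}))^{1/d}` is a `d`-th root of unity (ZA5) near 1;
conversely every point over `b` near `a` arises so. -/
def ZF2_stmt : Prop := ∀ (d n : ℕ) (μ : Fin (n + 1) → ℕ) (a : Fin (n + 1) → ℂ) (c : Fin n → ℂ)
  (G : (Fin (n + 1) → ℂ) → (Fin n → ℂ) × (Fin n → ℂ) × (Fin n → ℂ) × (Fin n → ℂ) → ℂ), Adm d μ →
  Function.Injective a → (Fxx a a c).Nonempty →
  (∀ z : ZPt n, IsZ d μ a a 1 c z → ContinuousAt (fun q : (Fin (n + 1) → ℂ) ×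
    ((Fin n → ℂ) × (Fin n → ℂ) × (Fin n → ℂ) × (Fin n → ℂ)) => G q.1 q.2) (a, z.x, z.y, z.x', z.y')) →
  Tendsto (fun b : Fin (n + 1) → ℂ =>
      ∑ᶠ z ∈ {z : ZPt n | IsZ d μ a b (kp d μ a b) c z}, G b (z.x, z.y, z.x', z.y')) (𝓝 a)
    (𝓝 (∑ᶠ z ∈ {z : ZPt n | IsZ d μ a a 1 c z}, G a (z.x, z.y, z.x', z.y')))

/-- ZF3: continuity of the integrands at the points of the fibres over `b = a`: `lam b`, `ff b`, `hh b` are continuous
in `b`, `XM'` is a quotient with nonzero denominators (`x'` injective, `f_a(x'_i) ≠ 0`), `y_i, y'_i ≠ 0`. -/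
def ZF3_stmt : Prop := ∀ (d n : ℕ) (μ : Fin (n + 1) → ℕ) (a : Fin (n + 1) → ℂ) (c : Fin n → ℂ)
  (s : Fin n → Bool × ℕ × ℕ), Adm d μ → Function.Injective a →
  (∀ z : ZPt n, IsZ d μ a a 1 c z → ContinuousAt (fun q : (Fin (n + 1) → ℂ) ×
    ((Fin n → ℂ) × (Fin n → ℂ) × (Fin n → ℂ) × (Fin n → ℂ)) =>
      (TM d μ a q.1 s ⟨q.2.1, q.2.2.1, q.2.2.2.1, q.2.2.2.2⟩).det) (a, z.x, z.y, z.x', z.y')) ∧
  (∀ (φ : Fin n → Fin n), ∀ p ∈ Fxx a a c, ContinuousAt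
    (fun q : (Fin (n + 1) → ℂ) × ((Fin n → ℂ) × (Fin n → ℂ)) =>
      (∏ i, wts d μ a q.1 (s i) (Psi (RR s) φ q.2 i)) *
        ENNReal.ofReal (‖JJ a q.1 (RR s) φ q.2‖ ^ 2)) (a, p))

/-- ZF4: continuity of `κ` and its equation; injectivity is an open condition. -/
def ZF4_stmt : Prop := ∀ (d n : ℕ) (μ : Fin (n + 1) → ℕ) (a : Fin (n + 1) → ℂ), 0 < d →
  Function.Injective a →
  Tendsto (fun b : Fin (n + 1) → ℂ => kp d μ a b) (𝓝 a) (𝓝 1) ∧ kp d μ a a = 1 ∧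
  (∀ b, Function.Injective b → kp d μ a b ≠ 0 ∧ kp d μ a b ^ d = ∏ j, (lam b j / lam a j) ^ μ j) ∧
  ∀ᶠ b in 𝓝 a, Function.Injective b

/-- ZF5: THE LIMIT. `tendsto_of_seq_tendsto`; ZF0 with `D = DD (sI) + DD (sJ)`, `I = II (sI) + II (sJ)`; ZA0, ZD1, ZD3,
ZB5, ZB8, ZE3, ZF1, ZF2, ZF3, ZF4. -/
def ZF5_stmt : Prop := ∀ (d n : ℕ) (μ : Fin (n + 1) → ℕ) (r : ℕ) (a : Fin (n + 1) → ℂ), Adm d μ →
  0 < r → r < d → Nat.Coprime r d → Function.Injective a →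
  Tendsto (fun b : Fin (n + 1) → ℂ => cI d μ a b (kp d μ a b) r) (𝓝 a) (𝓝 (cI d μ a a 1 r))

/-! ## G. The value at `a = b` -/

/-- ZG1: for `a = b`, `κ = 1` the two determinants are EQUAL. `x' = x ∘ σ` (ZA4), `XM' a a x' l = XM x (σ l)` (ZA6),
`y'_{σ⁻¹ m} = γ_m y_m` with `γ_m^d = 1`, `∏ γ_m = 1`; `TM (sI) = Q_I * XM x` with
`Q_I i m = omn r i (x_m) (y_m)` for `i < p` and `omn (d-r) (i-p) (x_m) (y_m) γ_m^r` for `i ≥ p`
(`γ^{-(d-r)} = γ^r`), and `TM (sJ) = Q_J * XM x`, column `m` of `Q_J` = `γ_m^{-r}` times the one of `Q_I`. -/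
def ZG1_stmt : Prop := ∀ (d n : ℕ) (μ : Fin (n + 1) → ℕ) (r : ℕ) (a : Fin (n + 1) → ℂ) (c : Fin n → ℂ)
  (z : ZPt n), Adm d μ → 0 < r → r < d → Nat.Coprime r d → Function.Injective a →
  IsZ d μ a a 1 c z → (TM d μ a a (sI d μ r) z).det = (TM d μ a a (sJ d μ r) z).det

/-- ZG2: linear algebra over the group `Γ = {γ | γ_l^d = 1, ∏ γ_l = 1}`. If all these determinants vanish, then
`0 = ∑_{γ ∈ Γ} ∏_{l ≥ p} γ_l^{-r} det = ∑_τ sgn τ ∏ A_{i,τ i} ∑_γ ∏_{i ≥ p} γ_{τ i}^r ∏_{l ≥ p} γ_l^{-r}`, and the inner sum is 0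
unless `τ` preserves `{l ≥ p}` (otherwise multiply `γ` by `ζ` at a place `l` in `τ{≥ p}` not in `{≥ p}` and by `ζ⁻¹` at a
place of `{≥ p}` not in `τ{≥ p}`: factor `ζ^{2r} ≠ 1` since `d ≥ 3`); so it is `#Γ` times the product of the two
block determinants. -/
def ZG2_stmt : Prop := ∀ (d n r p : ℕ) (A : Matrix (Fin n) (Fin n) ℂ), 3 ≤ d → Nat.Coprime r d → p ≤ n →
  (Matrix.of fun i j : {l : Fin n // (l : ℕ) < p} => A i.1 j.1).det ≠ 0 →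
  (Matrix.of fun i j : {l : Fin n // ¬ (l : ℕ) < p} => A i.1 j.1).det ≠ 0 →
  ∃ γ : Fin n → ℂ, (∀ l, γ l ^ d = 1) ∧ ∏ l, γ l = 1 ∧
    (Matrix.of fun (i l : Fin n) => if (i : ℕ) < p then A i l else A i l * γ l ^ r).det ≠ 0

/-- ZG3: a point with nonzero determinant over every good `c`. `x ∈ Rt c`, `y_l^d = fm_a(x_l)`,
`A i l = omn r i (x_l) (y_l)` (`i < p`), `omn (d-r) (i-p) (x_l) (y_l)` (`i ≥ p`) (blocks: Vandermonde times a nonzero diagonal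
matrix), `γ` of ZG2, `z = (x, y, x, γ y)`; as in ZG1 `det TM (sI) = det (...) * det (XM x)`. Uses ZG2, ZA0, ZA1,
ZA6. -/
def ZG3_stmt : Prop := ∀ (d n : ℕ) (μ : Fin (n + 1) → ℕ) (r : ℕ) (a : Fin (n + 1) → ℂ) (c : Fin n → ℂ),
  Adm d μ → 0 < r → r < d → Nat.Coprime r d → Function.Injective a → (Fxx a a c).Nonempty →
  ∃ z : ZPt n, IsZ d μ a a 1 c z ∧ (TM d μ a a (sI d μ r) z).det ≠ 0

/-- ZG4: THE VALUE at `a = b`: the integrand is `∑_z |det TM (sI)|^2`, positive almost everywhere (ZG1, ZG3, ZB5),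
integrable (ZD3). -/
def ZG4_stmt : Prop := ∀ (d n : ℕ) (μ : Fin (n + 1) → ℕ) (r : ℕ) (a : Fin (n + 1) → ℂ), Adm d μ →
  0 < r → r < d → Nat.Coprime r d → Function.Injective a → cI d μ a a 1 r ≠ 0

/-! ## H. Outputs -/

/-- ZH1: output (ii). Uses ZF4, ZF5, ZG4 (finitely many `r`). -/
def ZH1_stmt : Prop := ∀ (d n : ℕ) (μ : Fin (n + 1) → ℕ) (a : Fin (n + 1) → ℂ), Adm d μ →
  Function.Injective a → ∀ᶠ b in 𝓝 a, Function.Injective b ∧ ∃ κ : ℂ, κ ≠ 0 ∧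
    κ ^ d = ∏ j, (lam b j / lam a j) ^ μ j ∧
    ∀ r, 0 < r → r < d → Nat.Coprime r d → cI d μ a b κ r ≠ 0

/-- the coordinate functions on `W × W` -/
def cc (d : ℕ) {n : ℕ} (μ : Fin (n + 1) → ℕ) (e : Idx d μ ⊕ Idx d μ) :
    ((Idx d μ → ℂ) × (Idx d μ → ℂ)) →ₗ[ℂ] ℂ :=
  Sum.elim (fun e => (LinearMap.proj e : (Idx d μ → ℂ) →ₗ[ℂ] ℂ) ∘ₗ LinearMap.fst ℂ _ _)
    (fun e => (LinearMap.proj e : (Idx d μ → ℂ) →ₗ[ℂ] ℂ) ∘ₗ LinearMap.snd ℂ _ _) e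

/-- the side, exponent of `y` and exponent of `x` -/
def num {d n : ℕ} {μ : Fin (n + 1) → ℕ} (e : Idx d μ ⊕ Idx d μ) : Bool × ℕ × ℕ :=
  Sum.elim (fun e => (true, (e.r : ℕ), (e.k : ℕ))) (fun e => (false, (e.r : ℕ), (e.k : ℕ))) e

/-- the real linear functions `co_e` (first `n`) and `conj co_e` (last `n`) -/
def ccR (d : ℕ) {n : ℕ} (μ : Fin (n + 1) → ℕ) (s s' : Fin n → Idx d μ ⊕ Idx d μ) (i : Fin (2 * n)) :
    ((Idx d μ → ℂ) × (Idx d μ → ℂ)) →ₗ[ℝ] ℂ :=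
  if h : (i : ℕ) < n then (cc d μ (s ⟨i, h⟩)).restrictScalars ℝ
  else Complex.conjLIE.toLinearEquiv.toLinearMap ∘ₗ
    (cc d μ (s' ⟨(i : ℕ) - n, by omega⟩)).restrictScalars ℝ

/-- ZH2: link of `clZ` and the integrals of products of determinants: the form `co_{s_1} ∧ ... ∧ co_{s_n} ∧ conj co_{s'_1} ∧ ...`
takes on `Df z (rb_j)` the value `cst n * det (TM s) * conj (det (TM s'))` (ZD4). -/
def ZH2_stmt : Prop := ∀ (d n : ℕ) (μ : Fin (n + 1) → ℕ) (a b : Fin (n + 1) → ℂ) (κ : ℂ)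
  (s s' : Fin n → Idx d μ ⊕ Idx d μ), Adm d μ → Function.Injective a → Function.Injective b →
  (∀ z : ZPt n, detForm (ccR d μ s s') (fun j => Df d μ a b z (rb n j)) =
    cst n * ((TM d μ a b (fun i => num (s i)) z).det *
      conj (TM d μ a b (fun i => num (s' i)) z).det)) ∧
  clZ d μ a b κ (detForm (ccR d μ s s')) = cst n *
    ∫ c : Fin n → ℂ, ∑ᶠ z ∈ {z : ZPt n | IsZ d μ a b κ c z},
      (TM d μ a b (fun i => num (s i)) z).det * conj (TM d μ a b (fun i => num (s' i)) z).det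

/-- ZH3: OUTPUT (ii) in terms of `clZ`: for `b` near `a` and a suitable `κ` all the components of weight
`(r, ..., r; -r, ..., -r)` of the class of `Z_{a,b}` are nonzero. Uses ZA0, ZH1, ZH2. -/
def ZH3_stmt : Prop := ∀ (d n : ℕ) (μ : Fin (n + 1) → ℕ) (a : Fin (n + 1) → ℂ), Adm d μ →
  Function.Injective a → ∀ᶠ b in 𝓝 a, Function.Injective b ∧ ∃ κ : ℂ, κ ≠ 0 ∧
    κ ^ d = ∏ j, (lam b j / lam a j) ^ μ j ∧
    ∀ r, 0 < r → r < d → Nat.Coprime r d → ∀ s s' : Fin n → Idx d μ ⊕ Idx d μ,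
      (∀ i, num (s i) = sI d μ r i) → (∀ i, num (s' i) = sJ d μ r i) →
      clZ d μ a b κ (detForm (ccR d μ s s')) ≠ 0

/-! ## C. The curve -/

/-- ZC1: integrability of constant 2-forms on the curve. `|η(w, i w)| ≤ C |w|^2`, at most `d` points `y`,
`|om|^2 ≤ ∑_e wg (ex ..)` (ZE1). -/
def ZC1_stmt : Prop := ∀ (d n : ℕ) (μ : Fin (n + 1) → ℕ) (a : Fin (n + 1) → ℂ), Adm d μ →
  Function.Injective a →
  (∀ η : (Idx d μ → ℂ) [⋀^Fin 2]→ₗ[ℝ] ℂ, Integrable (fun x : ℂ =>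
    ∑ᶠ y ∈ {y : ℂ | y ^ d = fm μ a x}, η ![om d μ a x y, Complex.I • om d μ a x y])) ∧
  (∀ η : (Idx d μ → ℂ) [⋀^Fin 2]→ₗ[ℝ] ℝ, Integrable (fun x : ℂ =>
    ∑ᶠ y ∈ {y : ℂ | y ^ d = fm μ a x}, η ![om d μ a x y, Complex.I • om d μ a x y]))

/-- the Gram matrix of the differentials -/
def Gr (d : ℕ) {n : ℕ} (μ : Fin (n + 1) → ℕ) (a : Fin (n + 1) → ℂ) (e e' : Idx d μ) : ℂ :=
  ∫ x : ℂ, ∑ᶠ y ∈ {y : ℂ | y ^ d = fm μ a x}, om d μ a x y e * conj (om d μ a x y e')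

/-- ZC2: the Gram matrix. For `e.r ≠ e'.r` the sum over `y ↦ ζ y` vanishes; for fixed `r` it is positive
definite: `∑ c_e conj c_{e'} Gr e e' = ∫ ∑_y |∑_e c_e x^k|^2 |hh|^2 / |y|^{2r} > 0`. -/
def ZC2_stmt : Prop := ∀ (d n : ℕ) (μ : Fin (n + 1) → ℕ) (a : Fin (n + 1) → ℂ), Adm d μ →
  Function.Injective a →
  (∀ e e' : Idx d μ, e.r ≠ e'.r → Gr d μ a e e' = 0) ∧
  ∀ r : Fin d, (Matrix.of fun e e' : {e : Idx d μ // e.r = r} => Gr d μ a e.1 e'.1).det ≠ 0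

/-- ZC3: link with `clC`. -/
def ZC3_stmt : Prop := ∀ (d n : ℕ) (μ : Fin (n + 1) → ℕ) (a : Fin (n + 1) → ℂ), Adm d μ →
  Function.Injective a → ∀ e e' : Idx d μ,
  clC d μ a (detForm ![(LinearMap.proj e : (Idx d μ → ℂ) →ₗ[ℝ] ℂ),
    Complex.conjLIE.toLinearEquiv.toLinearMap ∘ₗ (LinearMap.proj e' : (Idx d μ → ℂ) →ₗ[ℝ] ℂ)]) =
    -(2 * Complex.I) * Gr d μ a e e' ∧
  clC d μ a (detForm ![(LinearMap.proj e : (Idx d μ → ℂ) →ₗ[ℝ] ℂ),
    (LinearMap.proj e' : (Idx d μ → ℂ) →ₗ[ℝ] ℂ)]) = 0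

end

end Pool.Agent.HC.SJ
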