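import Pool.Agent.helper54.HC.TBase

/-!
# Project sj: the curves `C_a`, the cycles `Z_{a,b}` and their classes

`C_a : y^d = ∏ (x - a_j)^(μ_j)`, `n + 1` branch points `a_j` in the plane, `0 < μ_j < d` (and infinity is a branch point:
`d` does not divide `∑ μ_j`). The holomorphic forms belonging to the primitive characters of the group of the `d`-th
roots of unity are `x^k ∏ (x - a_j)^[r μ_j / d] dx / y^r`, `0 < r < d` prime to `d`, `(k + 1) d < ∑ (r μ_j mod d)`. The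
space of their coordinates is `W = (Idx d μ → ℂ)`; `om d μ a x y` is the vector of their values at the point `(x, y)`: the
derivative of the Abel-Jacobi map. `P_c(t) = t^n + ∑ c_i t^i` is the monic polynomial with coefficient vector `c`;
`Z_{a,b}` is the set of all `(x, y, x', y')`, `(x_i, y_i) ∈ C_a`, `(x'_i, y'_i) ∈ C_b`, `1 ≤ i ≤ n`, with
`∏_i (b_j - x'_i) / f_b'(b_j) = ∏_i (a_j - x_i) / f_a'(a_j)` for all `j` (`f_a = ∏ (x - a_j)`) and `∏ y_i = κ ∏ y'_i`; it is closed in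
`C_a^n × C_b^n`, algebraic, of dimension `n`, and parametrised by `c`, `P_c(t) = ∏ (t - x_i)` (finitely many points over
every `c`).
-/

namespace Pool.Agent.HC.SJ

open scoped Matrix ComplexConjugate Classical

noncomputable section

/-- `f_a(t) = ∏ (t - a_j)` -/
def ff {m : ℕ} (a : Fin m → ℂ) (t : ℂ) : ℂ := ∏ j, (t - a j)

/-- `1 / f_a'(a_j)` -/
def lam {m : ℕ} (a : Fin m → ℂ) (j : Fin m) : ℂ := (∏ k ∈ Finset.univ.erase j, (a j - a k))⁻¹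

/-- `∏ (t - a_j)^(μ_j)` -/
def fm {m : ℕ} (μ : Fin m → ℕ) (a : Fin m → ℂ) (t : ℂ) : ℂ := ∏ j, (t - a j) ^ μ j

/-- `∏ (t - a_j)^[r μ_j / d]` -/
def hh (d : ℕ) {m : ℕ} (μ : Fin m → ℕ) (a : Fin m → ℂ) (r : ℕ) (t : ℂ) : ℂ :=
  ∏ j, (t - a j) ^ (r * μ j / d)

/-- the monic polynomial `P_c(t) = t^n + ∑ c_i t^i` -/
def pv {n : ℕ} (c : Fin n → ℂ) (t : ℂ) : ℂ := t ^ n + ∑ i, c i * t ^ (i : ℕ)

/-- the holomorphic differentials `x^k ∏ (x - a_j)^[r μ_j / d] dx / y^r` of `C_a` (`0 < r < d` prime to `d`;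
`k + 1 < ∑ frac(r μ_j / d)`) -/
structure Idx (d : ℕ) {n : ℕ} (μ : Fin (n + 1) → ℕ) where
  r : Fin d
  k : Fin n
  cop : Nat.Coprime (r : ℕ) d
  pos : 0 < (r : ℕ)
  hol : ((k : ℕ) + 1) * d < ∑ j, (r : ℕ) * μ j % d
deriving DecidableEq

theorem Idx.inj (d : ℕ) {n : ℕ} (μ : Fin (n + 1) → ℕ) :
    Function.Injective (fun i : Idx d μ => (i.r, i.k)) := by
  rintro ⟨r, k, h1, h2, h3⟩ ⟨r', k', h1', h2', h3'⟩ h
  simp only [Prod.mk.injEq] at h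
  obtain ⟨rfl, rfl⟩ := h
  rfl

instance (d : ℕ) {n : ℕ} (μ : Fin (n + 1) → ℕ) : Finite (Idx d μ) :=
  Finite.of_injective _ (Idx.inj d μ)

instance (d : ℕ) {n : ℕ} (μ : Fin (n + 1) → ℕ) : Fintype (Idx d μ) := Fintype.ofFinite _

/-- the values of the differentials at the point `(x, y)` -/
def om (d : ℕ) {n : ℕ} (μ : Fin (n + 1) → ℕ) (a : Fin (n + 1) → ℂ) (x y : ℂ) : Idx d μ → ℂ :=
  fun i => x ^ (i.k : ℕ) * hh d μ a i.r x / y ^ (i.r : ℕ)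

/-- the class of the curve `C_a` (image under the Abel-Jacobi map): the integral of a constant form -/
def clC (d : ℕ) {n : ℕ} (μ : Fin (n + 1) → ℕ) (a : Fin (n + 1) → ℂ) {R : Type}
    [NormedAddCommGroup R] [NormedSpace ℝ R] (η : (Idx d μ → ℂ) [⋀^Fin 2]→ₗ[ℝ] R) : R :=
  ∫ x : ℂ, ∑ᶠ y ∈ {y : ℂ | y ^ d = fm μ a x}, η ![om d μ a x y, Complex.I • om d μ a x y]

/-- points `(x_i, y_i)`, `(x'_i, y'_i)` of `C_a^n × C_b^n` -/
structure ZPt (n : ℕ) where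
  x : Fin n → ℂ
  y : Fin n → ℂ
  x' : Fin n → ℂ
  y' : Fin n → ℂ

/-- the points of (the open dense part, with distinct `x_i`, distinct `x'_i` and no branch points, of) `Z_{a,b}` over `c` -/
structure IsZ (d : ℕ) {n : ℕ} (μ : Fin (n + 1) → ℕ) (a b : Fin (n + 1) → ℂ) (κ : ℂ) (c : Fin n → ℂ)
    (z : ZPt n) : Prop where
  inj : Function.Injective z.x
  inj' : Function.Injective z.x'
  ne : ∀ i, z.y i ≠ 0
  ne' : ∀ i, z.y' i ≠ 0
  roots : ∀ t, ∏ i, (t - z.x i) = pv c t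
  roots' : ∀ j, lam b j * ∏ i, (b j - z.x' i) = lam a j * pv c (a j)
  curve : ∀ i, z.y i ^ d = fm μ a (z.x i)
  curve' : ∀ i, z.y' i ^ d = fm μ b (z.x' i)
  prod : ∏ i, z.y i = κ * ∏ i, z.y' i

/-- `∂x_i/∂c_m = - x_i^m / P'(x_i)` -/
def XM {n : ℕ} (x : Fin n → ℂ) : Matrix (Fin n) (Fin n) ℂ := Matrix.of fun i m =>
  -(x i ^ (m : ℕ)) / ∏ k ∈ Finset.univ.erase i, (x i - x k)

/-- the linear part of `P ↦ Q`, `λ_j(b) Q(b_j) = λ_j(a) P(a_j)`, applied to `t^m`: `f_b(t) ∑_j λ_j(a) a_j^m / (t - b_j)` -/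
def Lm {n : ℕ} (a b : Fin (n + 1) → ℂ) (m : ℕ) (t : ℂ) : ℂ :=
  ff b t * ∑ j, lam a j * a j ^ m / (t - b j)

/-- `∂x'_i/∂c_m = - (L t^m)(x'_i) / Q'(x'_i)` -/
def XM' {n : ℕ} (a b : Fin (n + 1) → ℂ) (x' : Fin n → ℂ) : Matrix (Fin n) (Fin n) ℂ :=
  Matrix.of fun i m => -Lm a b (m : ℕ) (x' i) / ∏ k ∈ Finset.univ.erase i, (x' i - x' k)

/-- the derivative of the map `Z_{a,b} → A_a × A_b` (sum of the Abel-Jacobi maps) at the point `z` in the direction `v` -/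
def Df (d : ℕ) {n : ℕ} (μ : Fin (n + 1) → ℕ) (a b : Fin (n + 1) → ℂ) (z : ZPt n) (v : Fin n → ℂ) :
    (Idx d μ → ℂ) × (Idx d μ → ℂ) :=
  (∑ i, (XM z.x *ᵥ v) i • om d μ a (z.x i) (z.y i),
    ∑ i, (XM' a b z.x' *ᵥ v) i • om d μ b (z.x' i) (z.y' i))

/-- the class of `Z_{a,b}` (its image in `A_a × A_b`): the integral of a constant form -/
def clZ (d : ℕ) {n : ℕ} (μ : Fin (n + 1) → ℕ) (a b : Fin (n + 1) → ℂ) (κ : ℂ) {R : Type}
    [NormedAddCommGroup R] [NormedSpace ℝ R]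
    (η : ((Idx d μ → ℂ) × (Idx d μ → ℂ)) [⋀^Fin (2 * n)]→ₗ[ℝ] R) : R :=
  ∫ c : Fin n → ℂ, ∑ᶠ z ∈ {z : ZPt n | IsZ d μ a b κ c z}, η (fun j => Df d μ a b z (rb n j))

end

end Pool.Agent.HC.SJ
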